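import Pool.Agent.Helper18.NF.Quant3

/-!
# Almost all integers `a` are least primitive roots of infinitely many primes
-/

set_option autoImplicit false

open Pool.Agent.Helper18.BV

namespace Pool.Agent.Results.MP_265190_nt.AlmostAllIntegers

theorem result : ∃ c C : ℝ, 0 < c ∧ 0 < C ∧ ∀ x : ℝ, 3 ≤ x →
    ({a : ℕ | 1 ≤ a ∧ (a : ℝ) ≤ x ∧ ¬ Rich a}.ncard : ℝ) ≤
      C * x * Real.exp (-(c * Real.sqrt (Real.log x) / Real.log (Real.log x))) := by
  simp only [rich_iff]
  exact Pool.Agent.Helper18.NF.quant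

end Pool.Agent.Results.MP_265190_nt.AlmostAllIntegers
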