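import Pool.Agent.Helper18.BV.Final

/-!
# Every prime `q ≥ 5` has a bounded multiple that is the least primitive root of many primes
-/

set_option autoImplicit false

open Pool.Agent.Helper18.BV

namespace Pool.Agent.Results.MP_265190_nt.BoundedMultiples

theorem result : ∃ C : ℕ, ∀ q : ℕ, q.Prime → 5 ≤ q →
    ∃ m : ℕ, 1 ≤ m ∧ m ≤ C ∧ Rich (m * q) := by
  obtain ⟨k, hk, hM⟩ := main2
  refine ⟨Nat.nth Nat.Prime k, fun q hq hq5 => ?_⟩
  obtain ⟨m, h1, h2, h3⟩ := multiples hM hq hq5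
  exact ⟨m, h1, h2, h3.rich⟩

end Pool.Agent.Results.MP_265190_nt.BoundedMultiples
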