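import Pool.Agent.Helper18.NF.Final

/-!
# For fixed `m`, all but `O(log x)` of the multiples `m q`, `q ≤ x` prime, are least primitive roots
-/

set_option autoImplicit false

open Pool.Agent.Helper18.BV

namespace Pool.Agent.Results.MP_265190_nt.PrimeMultiples

theorem result : ∀ m : ℕ, 1 ≤ m → ∃ C : ℝ, 0 < C ∧ ∀ x : ℝ, 2 ≤ x →
    ({q : ℕ | q.Prime ∧ (q : ℝ) ≤ x ∧ ¬ Rich (m * q)}.ncard : ℝ) ≤ C * Real.log x := by
  intro m hm
  obtain ⟨C, hC, h⟩ := Pool.Agent.Helper18.NF.fixedMul' m hm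
  refine ⟨C, hC, fun x hx => ?_⟩
  simp only [rich_iff]
  exact h x hx

end Pool.Agent.Results.MP_265190_nt.PrimeMultiples
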